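import Pool.Agent.H53.GX.Targets2

/-!
# Forbidden coloured patterns, no precolouring: assembly of the combinatorial part
-/

set_option autoImplicit false
set_option linter.unusedVariables false

namespace Pool.Agent.H53.GX

open Pool.Agent.H68.BP Pool.Agent.H58.SF Pool.Agent.H53.GM
open Pool.Agent.H53.GR (So)
open Classical

/-- the algebra -/
theorem asm_noiX (hJZ : T_JZX) (hSWI : Pool.Agent.H53.GM.T_SWI)
    (hNXT : Pool.Agent.H53.GM.T_NXT) (hCYC : Pool.Agent.H53.GM.T_CYC)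
    (hOLK : Pool.Agent.H53.GM.T_OLK)
    (X 𝓛 : Type) [Finite X] [Nonempty X] [Finite 𝓛] (N k : ℕ)
    (R : 𝓛 → (So N k → X) → Prop) (l₀ : 𝓛) (rd : So N k → So N k → X → X) (hB : Bas R l₀ rd)
    (hC : ∀ I : Finset (Fin k), ChX R l₀ I) :
    ∃ F : So N k → (Fin 6 → X) → X, Pool.Agent.H53.GC.Fam R (Fin 6) F ∧
      ∀ e x y r, F e (pat r x y) = F e (pat 0 x y) := by
  have key : ∀ (m : ℕ) (I : Finset (Fin k)), k - I.card ≤ m →
      ¬ ∃ ι : (J : Type) → [Finite J] → [Nonempty J] → (So N k → (J → X) → X) → J,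
        Iot R l₀ I ι := by
    intro m
    induction m with
    | zero =>
      rintro I hI ⟨ι, hι⟩
      obtain ⟨⟨e, he⟩, h1, v, hv, h2⟩ := hJZ X 𝓛 N k R l₀ rd I ι hB hι (hC I)
      have h3 : I.card < (Finset.univ : Finset (Fin k)).card :=
        Finset.card_lt_card ⟨Finset.subset_univ _, fun h => hv (h (Finset.mem_univ v))⟩
      rw [Finset.card_univ, Fintype.card_fin] at h3
      omega
    | succ m ih =>
      rintro I hI ⟨ι, hι⟩
      obtain ⟨⟨e, he⟩, h1, v, hv, h2⟩ := hJZ X 𝓛 N k R l₀ rd I ι hB hι (hC I)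
      let I' : Finset (Fin k) := Finset.univ.filter fun v => ∀ e, Loc R l₀ I ι e → v ∈ e.1
      have hII : I ⊆ I' := by
        intro w hw
        refine Finset.mem_filter.2 ⟨Finset.mem_univ _, fun e he => ?_⟩
        exact (h1 e he).1 hw
      have hvI : v ∈ I' := Finset.mem_filter.2 ⟨Finset.mem_univ _, h2⟩
      have hsub : ∀ e, Loc R l₀ I ι e → I' ⊆ e.1 := fun e he w hw =>
        (Finset.mem_filter.1 hw).2 e he
      have hcard : I'.card ≤ N := (Finset.card_le_card (hsub e he)).trans e.2.2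
      have hstr : ∀ e, Loc R l₀ I ι e → I' ⊂ e.1 := by
        intro e' he'
        refine lt_of_le_of_ne (hsub e' he') fun heq => ?_
        exact hSWI X 𝓛 N k R l₀ rd I ι ⟨I', ⟨v, hvI⟩, hcard⟩ hB hι (fun e he => hsub e he) (by
          have h5 : (⟨I', ⟨v, hvI⟩, hcard⟩ : So N k) = e' := Subtype.ext heq
          rw [h5]
          exact he')
      have hlt : I.card < I'.card :=
        Finset.card_lt_card ⟨hII, fun h => hv (h hvI)⟩
      refine hNXT X 𝓛 N k R l₀ rd I I' ι hB hι hII hstr ?_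
      refine hCYC X 𝓛 N k R l₀ rd I' hB (ih I' ?_)
      omega
  exact hOLK X 𝓛 N k R l₀ rd hB (hCYC X 𝓛 N k R l₀ rd ∅ hB (key k ∅ (by simp)))

theorem bas_RS {τ σ : Sig} {N k : ℕ} (C : Set (Ty τ N (Fin k))) (Al : Fin σ.m → Fin τ.m → Prop) :
    Bas (RS (N := N) C Al) none (fun a b x => rse a.1 x) := by
  refine ⟨?_, ?_⟩
  · rintro (_ | q) p hp
    · exact hp
    · obtain ⟨P, h1, h2, h3⟩ := hp
      exact ⟨P, h1, h3⟩
  · rintro p ⟨P, h1, h2⟩ a b hab
    rw [h2 a, h2 b]
    ext q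
    constructor
    · rintro ⟨h3, h4⟩
      exact ⟨⟨h3, fun v i hi => hab (h4 v i hi)⟩, h4⟩
    · rintro ⟨⟨h3, h5⟩, h4⟩
      exact ⟨h3, h4⟩

/-- the chains of operations -/
theorem asm_cho (hLBO : T_LBO) (hLBE : T_LBE) (hLBT : T_LBT) (hLBC : T_LBC) : T_CHO := by
  intro τ σ N k F Al hk eps hcore I Out th hcor
  have hO := hLBO τ σ N k F Al hk eps hcore I Out th hcor
  obtain ⟨hE1, hE2, hE3⟩ := hLBE τ σ N k F Al hk eps hcore I Out th hcor
  have hT := hLBT τ σ N k F Al hk eps hcore I Out th hcor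
  have hA0 : ∀ v v' : Fin k, Adj ((fun _ => none : Fin k → Rg (N + 1)) v)
      ((fun _ => none : Fin k → Rg (N + 1)) v') := by
    intro v v'
    refine ⟨by simp, by simp, ?_⟩
    intro q q' h
    cases h
  have hA1 : ∀ v v' : Fin k, Adj ((fun _ => some none : Fin k → Rg (N + 1)) v)
      ((fun _ => some none : Fin k → Rg (N + 1)) v') := by
    intro v v'
    refine ⟨by simp, by simp, ?_⟩
    intro q q' h
    cases h
  refine ⟨Ps eps I Out th 0 (fun _ => none),
    fun P => Ps eps I Out th 0 (fun _ => some none) (pat 0 (P 0) (P 1)), ?_, ?_, fun r => ?_⟩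
  · exact (hO 0 (fun _ => none) (fun _ => trivial) hA0).1 fun _ => rfl
  · exact (hO 0 (fun _ => some none) (fun _ => trivial) hA1).2
  · obtain ⟨m, lb, h1, h2, h3, h4, h5⟩ := hLBC k (N + 1) r hk (by omega)
    refine ⟨m, fun j P => Ps eps I Out th r (lb j) (pat r (P 0) (P 1)), fun j =>
      (hO r (lb j) (h1 j) (h2 j)).2, ?_, ?_, ?_⟩
    · intro P hP e
      show rse e (Ps eps I Out th r (lb 0) _) = _
      rw [h3]
      refine hE1 r 0 (pat r (P 0) (P 1)) ?_ e
      have key : ∀ c : Fin 6, pat r (P 0) (P 1) c = P 0 ∨ pat r (P 0) (P 1) c = P 1 := by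
        intro c
        fin_cases r <;> fin_cases c <;> simp [pat]
      refine ⟨fun c => ?_, fun e' he' c c' => ?_⟩
      · rcases key c with h | h <;> rw [h]
        · exact hP.mem 0
        · exact hP.mem 1
      · have h00 := hP.eq e' he'
        rcases key c with h | h <;> rcases key c' with h' | h' <;> rw [h, h'] <;> exact h00 _ _
    · intro P hP e
      show rse e (Ps eps I Out th r (lb m) _) = _
      rw [h4]
      exact hE2 r 0 P hP e
    · intro j hj
      obtain ⟨u, hu⟩ := h5 j hj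
      by_cases huI : u ∈ I
      · right
        obtain ⟨Θ, g1, g2, g3⟩ := hT r (lb j) (lb (j + 1)) (h1 j) (h2 j) (h1 (j + 1))
          (h2 (j + 1)) u huI hu
        exact ⟨Θ, g1, g2, g3⟩
      · left
        exact ⟨u, huI, fun P hP e he => hE3 r (lb j) (lb (j + 1)) (h1 j) (h2 j) (h1 (j + 1))
          (h2 (j + 1)) u huI hu P hP e he⟩

/-- the combinatorial part -/
theorem asm_alg (hCORE : T_CORE) (hCOR : T_COR) (hCHO : T_CHO) (hCHF : T_CHF) (hJZX : T_JZX)
    (hSWI : Pool.Agent.H53.GM.T_SWI) (hNXT : Pool.Agent.H53.GM.T_NXT)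
    (hCYC : Pool.Agent.H53.GM.T_CYC) (hOLK : Pool.Agent.H53.GM.T_OLK) (hEPS : T_EPS) :
    T_ALG := by
  intro τ σ N F Al hF k hk hOut
  obtain ⟨eps, hcore⟩ := hCORE τ σ N F Al hF k hk
  refine hEPS τ σ N k F Al hk eps hcore ?_
  have hfin := finite_ty τ N (Fin k)
  have hne : Nonempty (Ty τ N (Fin k)) := ⟨∅⟩
  refine asm_noiX hJZX hSWI hNXT hCYC hOLK _ _ N k _ none _ (bas_RS (CS F eps) Al) fun I => ?_
  refine hCHF τ σ N k F Al hk (CS F eps) I (fun P hP => hP.1) ?_
  have key : ∀ a₀ : Ty τ N (Fin (k + k)), ∃ (Out : Nm τ N k (N + 1) → Ty τ N (Fin k))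
      (th : Nm τ N k (N + 1) → Ty τ N (Fin k) → Ty τ N (Fin k)),
      (∃ P, Rl F P ∧ rse (cst I) P = a₀) → CorP F Al I a₀ eps Out th := by
    intro a₀
    by_cases ha₀ : ∃ P, Rl F P ∧ rse (cst I) P = a₀
    · obtain ⟨Out, h1, h2⟩ := hOut I a₀ ha₀
      have hOutP : OutP F Al I a₀ Out := by
        refine ⟨fun q hq => (h1 q hq).1, fun q hq l z hz => (h1 q hq).2 l z fun c => ?_, h2⟩
        obtain ⟨c', g1, g2, g3⟩ := hz c
        refine ⟨c', g1, g2, ?_⟩
        have h0 : ((atm N c' (fun i => z (Fin.cast g2 i))).1,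
            fun v => ((atm N c' (fun i => z (Fin.cast g2 i))).2 v).map (rdp q.1)) =
            atm N c' (fun i => rdp q.1 (z (Fin.cast g2 i))) := by
          unfold atm
          refine Prod.ext rfl ?_
          funext v
          by_cases hv : (v : ℕ) < τ.ar c'
          · simp [hv]
          · simp [hv]
        rw [← h0]
        exact g3
      obtain ⟨th, hth⟩ := hCOR τ σ N F Al hF k hk eps hcore I a₀ ha₀ Out hOutP
      exact ⟨Out, th, fun _ => hth⟩
    · exact ⟨fun _ => ∅, fun _ _ => ∅, fun h => absurd h ha₀⟩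
  choose Out th h using key
  exact hCHO τ σ N k F Al hk eps hcore I Out th h

end Pool.Agent.H53.GX
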