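import Pool.Agent.H53.GX.Asm

/-!
# Forbidden coloured patterns, no precolouring: core, corrections, chains
-/

set_option autoImplicit false
set_option linter.unusedVariables false

namespace Pool.Agent.H53.GX

open Pool.Agent.H68.BP Pool.Agent.H58.SF Pool.Agent.H53.GM
open Pool.Agent.H53.GR (So)
open Classical

noncomputable section

/-! ### The core -/

section core

variable {τ σ : Sig} {N k : ℕ}

/-- `th` maps `C` to `C` and preserves colours and equality of restrictions. -/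
structure NatM (Al : Fin σ.m → Fin τ.m → Prop) (C : Set (Ty τ N (Fin k)))
    (th : Ty τ N (Fin k) → Ty τ N (Fin k)) : Prop where
  mem : ∀ P ∈ C, th P ∈ C
  has : ∀ P ∈ C, ∀ (l : Fin σ.m) (z : Fin (σ.ar l) → Fin k), hasl Al l z P → hasl Al l z (th P)
  nat : ∀ P ∈ C, ∀ P' ∈ C, ∀ e : Finset (Fin k), rse e P = rse e P' →
    rse e (th P) = rse e (th P')

/-- the image of `eps` -/
def CS (F : Set (Str τ (Fin N))) (eps : Ty τ N (Fin k) → Ty τ N (Fin k)) :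
    Set (Ty τ N (Fin k)) := {P | Rl F P ∧ eps P = P}

/-- `eps` is a retraction to a core. -/
structure Core (F : Set (Str τ (Fin N))) (Al : Fin σ.m → Fin τ.m → Prop)
    (eps : Ty τ N (Fin k) → Ty τ N (Fin k)) : Prop where
  nat : NatM Al {P | Rl F P} eps
  idem : ∀ P, Rl F P → eps (eps P) = eps P
  inj : ∀ th : Ty τ N (Fin k) → Ty τ N (Fin k), NatM Al (CS F eps) th →
    ∀ P ∈ CS F eps, ∀ P' ∈ CS F eps, ∀ e : Finset (Fin k), rse e (th P) = rse e (th P') →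
      rse e P = rse e P'

end core

/-! ### Corrections -/

section corr

variable {τ σ : Sig} {N k L : ℕ}

/-- the pattern of the argument `c`; the positions in `S` are the constants -/
def ptn (q : Nm τ N k L) (c : Fin 6) : Ty τ N (Fin k) := rs (rdp q.1) (q.2.2.2 c)

/-- configurations where all positions have regions -/
structure CfD (F : Set (Str τ (Fin N))) (I : Finset (Fin k)) (a₀ : Ty τ N (Fin (k + k)))
    (q : Nm τ N k L) : Prop where
  cf : CfX F I a₀ q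
  reg : ∀ v, inR q.2.1 (q.2.2.1 v)
  adj : ∀ v v', Adj (q.2.2.1 v) (q.2.2.1 v')
  bin : (∀ v, q.2.2.1 v = none) ∨ ∃ P P', q.2.2.2 = pat q.2.1 P P'

/-- The configurations and the regions of all positions agree on `e`. -/
structure EqD (I : Finset (Fin k)) (a₀ : Ty τ N (Fin (k + k))) (e : Finset (Fin k))
    (q q' : Nm τ N k L) : Prop where
  eqx : EqX I a₀ e q q'
  lb : ∀ v ∈ e, q.2.2.1 v = q'.2.2.1 v

/-- The configuration is diagonal on `e`. -/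
def DgX (C : Set (Ty τ N (Fin k))) (q : Nm τ N k L) (e : Finset (Fin k)) : Prop :=
  (∀ c, rse e (ptn q c) = rse e (ptn q 0)) ∧ ∃ P ∈ C, rse e (ptn q 0) = rse e P

/-- outputs -/
structure OutP (F : Set (Str τ (Fin N))) (Al : Fin σ.m → Fin τ.m → Prop) (I : Finset (Fin k))
    (a₀ : Ty τ N (Fin (k + k))) (Out : Nm τ N k L → Ty τ N (Fin k)) : Prop where
  rl : ∀ q, CfX F I a₀ q → Rl F (Out q)
  has : ∀ q, CfX F I a₀ q → ∀ (l : Fin σ.m) (z : Fin (σ.ar l) → Fin k),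
    (∀ c, hasl Al l z (ptn q c)) → hasl Al l z (Out q)
  eq : ∀ q q' e, CfX F I a₀ q → CfX F I a₀ q' → EqX I a₀ e q q' →
    rse e (Out q) = rse e (Out q')

/-- outputs with corrections -/
structure CorP (F : Set (Str τ (Fin N))) (Al : Fin σ.m → Fin τ.m → Prop) (I : Finset (Fin k))
    (a₀ : Ty τ N (Fin (k + k))) (eps : Ty τ N (Fin k) → Ty τ N (Fin k))
    (Out : Nm τ N k L → Ty τ N (Fin k)) (th : Nm τ N k L → Ty τ N (Fin k) → Ty τ N (Fin k)) :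
    Prop where
  out : OutP F Al I a₀ Out
  nat : ∀ q, CfD F I a₀ q → NatM Al (CS F eps) (th q)
  eq : ∀ q q' e, CfD F I a₀ q → CfD F I a₀ q' → EqD I a₀ e q q' →
    ∀ P ∈ CS F eps, ∀ P' ∈ CS F eps, rse e P = rse e P' → rse e (th q P) = rse e (th q' P')
  dg : ∀ q e, CfD F I a₀ q → DgX (CS F eps) q e →
    rse e (th q (eps (Out q))) = rse e (ptn q 0)

/-- the tuple where each element is doubled -/
def dup (P : Ty τ N (Fin k)) : Ty τ N (Fin (k + k)) := rs (Fin.addCases id id) P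

/-- the configuration of the level `I` with the six patterns `P` -/
def cfg (I : Finset (Fin k)) (r : Fin 3) (lb : Fin k → Rg L) (P : Fin 6 → Ty τ N (Fin k)) :
    Nm τ N k L :=
  (I, r, lb, fun c => rse (ps (Finset.univ \ I) ∪ cst I) (dup (P c)))

/-- the corrected outputs -/
def Ps (eps : Ty τ N (Fin k) → Ty τ N (Fin k)) (I : Finset (Fin k))
    (Out : Ty τ N (Fin (k + k)) → Nm τ N k L → Ty τ N (Fin k))
    (th : Ty τ N (Fin (k + k)) → Nm τ N k L → Ty τ N (Fin k) → Ty τ N (Fin k))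
    (r : Fin 3) (lb : Fin k → Rg L) (P : Fin 6 → Ty τ N (Fin k)) : Ty τ N (Fin k) :=
  th (rse (cst I) (dup (P 0))) (cfg I r lb P) (eps (Out (rse (cst I) (dup (P 0))) (cfg I r lb P)))

end corr

/-! ### Operations and families -/

section ops

variable {τ σ : Sig} {N k : ℕ} {J : Type}

/-- The tuple of patterns in `C` is valid at the level `I`. -/
structure VP (C : Set (Ty τ N (Fin k))) (I : Finset (Fin k)) (P : J → Ty τ N (Fin k)) :
    Prop where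
  mem : ∀ i, P i ∈ C
  eq : ∀ e : Finset (Fin k), ¬ I ⊂ e → ∀ i i', rse e (P i) = rse e (P i')

/-- operations of the level `I` -/
structure OpI (C : Set (Ty τ N (Fin k))) (Al : Fin σ.m → Fin τ.m → Prop) (I : Finset (Fin k))
    (J : Type) (Φ : (J → Ty τ N (Fin k)) → Ty τ N (Fin k)) : Prop where
  mem : ∀ P, VP C I P → Φ P ∈ C
  has : ∀ P, VP C I P → ∀ (l : Fin σ.m) (z : Fin (σ.ar l) → Fin k), (∀ i, hasl Al l z (P i)) →
    hasl Al l z (Φ P)
  nat : ∀ P P', VP C I P → VP C I P' → ∀ e : Finset (Fin k), I ⊂ e →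
    (∀ i, rse e (P i) = rse e (P' i)) → rse e (Φ P) = rse e (Φ P')
  idem : ∀ P, VP C I P → ∀ (e : Finset (Fin k)) t, (∀ i, rse e (P i) = t) → rse e (Φ P) = t

/-- the relations on patterns in `C` -/
def RS (C : Set (Ty τ N (Fin k))) (Al : Fin σ.m → Fin τ.m → Prop) :
    Option (Σ l : Fin σ.m, (Fin (σ.ar l) → Fin k)) → (So N k → Ty τ N (Fin k)) → Prop
  | none => fun p => ∃ P ∈ C, ∀ e : So N k, p e = rse e.1 P
  | some q => fun p => ∃ P ∈ C, hasl Al q.1 q.2 P ∧ ∀ e : So N k, p e = rse e.1 P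

/-- iteration in the last argument -/
def itO (Θ : (Fin 3 → Ty τ N (Fin k)) → Ty τ N (Fin k)) :
    ℕ → (Fin 3 → Ty τ N (Fin k)) → Ty τ N (Fin k)
  | 0, P => P 2
  | m + 1, P => Θ ![P 0, P 1, itO Θ m P]

/-- chains of operations -/
def ChO (C : Set (Ty τ N (Fin k))) (Al : Fin σ.m → Fin τ.m → Prop) (I : Finset (Fin k)) : Prop :=
  ∃ (H : (Fin 6 → Ty τ N (Fin k)) → Ty τ N (Fin k))
    (D : (Fin 2 → Ty τ N (Fin k)) → Ty τ N (Fin k)), OpI C Al I (Fin 6) H ∧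
    OpI C Al I (Fin 2) D ∧ ∀ r : Fin 3, ∃ (m : ℕ)
      (G : ℕ → (Fin 2 → Ty τ N (Fin k)) → Ty τ N (Fin k)),
      (∀ j, OpI C Al I (Fin 2) (G j)) ∧
      (∀ P : Fin 2 → Ty τ N (Fin k), VP C I P → ∀ e : Finset (Fin k),
        rse e (G 0 P) = rse e (H (pat r (P 0) (P 1)))) ∧
      (∀ P : Fin 2 → Ty τ N (Fin k), VP C I P → ∀ e : Finset (Fin k),
        rse e (G m P) = rse e (D P)) ∧
      ∀ j, j < m → (∃ v, v ∉ I ∧ ∀ P : Fin 2 → Ty τ N (Fin k), VP C I P →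
          ∀ e : Finset (Fin k), v ∉ e → rse e (G j P) = rse e (G (j + 1) P)) ∨
        ∃ Θ : (Fin 3 → Ty τ N (Fin k)) → Ty τ N (Fin k), OpI C Al I (Fin 3) Θ ∧
          (∀ P : Fin 2 → Ty τ N (Fin k), VP C I P → ∀ e : Finset (Fin k),
            rse e (Θ ![P 0, P 1, G j P]) = rse e (G (j + 1) P)) ∧
          ∃ m', 1 ≤ m' ∧ ∀ P : Fin 3 → Ty τ N (Fin k), VP C I P → ∀ e : Finset (Fin k),
            rse e (itO Θ m' P) = rse e (P 2)

end ops

/-! ### Chains of families -/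

section fams

variable {X 𝓛 : Type} {N k : ℕ}

/-- iteration in the last argument -/
def itT (T : So N k → (Fin 3 → X) → X) : ℕ → So N k → (Fin 3 → X) → X
  | 0 => fun e w => w 2
  | m + 1 => fun e w => T e ![w 0, w 1, itT T m e w]

/-- chains of binary families with ternary steps -/
def ChX (R : 𝓛 → (So N k → X) → Prop) (l₀ : 𝓛) (I : Finset (Fin k)) : Prop :=
  ∃ (H : So N k → (Fin 6 → X) → X) (D : So N k → (Fin 2 → X) → X), FmI R I (Fin 6) H ∧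
    FmI R I (Fin 2) D ∧ ∀ r : Fin 3, ∃ (m : ℕ) (G : ℕ → So N k → (Fin 2 → X) → X),
      (∀ j, FmI R I (Fin 2) (G j)) ∧
      (∀ e, EqS R l₀ I e (G 0) (fun e w => H e (pat r (w 0) (w 1)))) ∧
      (∀ e, EqS R l₀ I e (G m) D) ∧
      ∀ j, j < m → (∃ v, v ∉ I ∧ ∀ e : So N k, v ∉ e.1 → EqS R l₀ I e (G j) (G (j + 1))) ∨
        ∃ T : So N k → (Fin 3 → X) → X, FmI R I (Fin 3) T ∧
          (∀ e, EqS R l₀ I e (G (j + 1)) (fun e w => T e ![w 0, w 1, G j e w])) ∧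
          ∃ m', 1 ≤ m' ∧ ∀ e, EqS R l₀ I e (itT T m') (fun e w => w 2)

end fams

end

/-! ### Targets -/

/-- the core -/
def T_CORE : Prop :=
  ∀ (τ σ : Sig) (N : ℕ) (F : Set (Str τ (Fin N))) (Al : Fin σ.m → Fin τ.m → Prop), Hyp τ N F →
    ∀ k : ℕ, 1 ≤ k → ∃ eps : Ty τ N (Fin k) → Ty τ N (Fin k), Core F Al eps

/-- the correction lemma -/
def T_COR : Prop :=
  ∀ (τ σ : Sig) (N : ℕ) (F : Set (Str τ (Fin N))) (Al : Fin σ.m → Fin τ.m → Prop), Hyp τ N F →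
    ∀ k : ℕ, 1 ≤ k → ∀ eps : Ty τ N (Fin k) → Ty τ N (Fin k), Core F Al eps →
    ∀ (I : Finset (Fin k)) (a₀ : Ty τ N (Fin (k + k))), (∃ P, Rl F P ∧ rse (cst I) P = a₀) →
    ∀ Out : Nm τ N k (N + 1) → Ty τ N (Fin k), OutP F Al I a₀ Out →
    ∃ th : Nm τ N k (N + 1) → Ty τ N (Fin k) → Ty τ N (Fin k), CorP F Al I a₀ eps Out th

/-- valid tuples of families are tuples of patterns -/
def T_VTP : Prop :=
  ∀ (τ σ : Sig) (N k : ℕ) (F : Set (Str τ (Fin N))) (Al : Fin σ.m → Fin τ.m → Prop), 1 ≤ k →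
    ∀ (C : Set (Ty τ N (Fin k))) (I : Finset (Fin k)), (∀ P ∈ C, Rl F P) →
    ∀ (J : Type) (l : Option (Σ l : Fin σ.m, (Fin (σ.ar l) → Fin k)))
      (p : J → So N k → Ty τ N (Fin k)), VT (RS C Al) l I p →
    ∃ P : J → Ty τ N (Fin k), VP C I P ∧ (∀ i (e : So N k), p i e = rse e.1 (P i)) ∧
      ∀ q, l = some q → ∀ i, hasl Al q.1 q.2 (P i)

/-- from operations to families -/
def T_OPF : Prop :=
  ∀ (τ σ : Sig) (N k : ℕ) (F : Set (Str τ (Fin N))) (Al : Fin σ.m → Fin τ.m → Prop), 1 ≤ k →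
    ∀ (C : Set (Ty τ N (Fin k))) (I : Finset (Fin k)), (∀ P ∈ C, Rl F P) →
    ∀ (J : Type) [Nonempty J] (Φ : (J → Ty τ N (Fin k)) → Ty τ N (Fin k)), OpI C Al I J Φ →
    ∃ G : So N k → (J → Ty τ N (Fin k)) → Ty τ N (Fin k), FmI (RS C Al) I J G ∧
      ∀ P : J → Ty τ N (Fin k), VP C I P → ∀ e : So N k,
        G e (fun i => rse e.1 (P i)) = rse e.1 (Φ P)

/-- from chains of operations to chains of families -/
def T_CHF : Prop :=
  ∀ (τ σ : Sig) (N k : ℕ) (F : Set (Str τ (Fin N))) (Al : Fin σ.m → Fin τ.m → Prop), 1 ≤ k →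
    ∀ (C : Set (Ty τ N (Fin k))) (I : Finset (Fin k)), (∀ P ∈ C, Rl F P) → ChO C Al I →
    ChX (RS C Al) none I

/-- the configurations of tuples of patterns -/
def T_CFG : Prop :=
  ∀ (τ σ : Sig) (N k L : ℕ) (F : Set (Str τ (Fin N))) (I : Finset (Fin k)), 1 ≤ k →
    ∀ (C : Set (Ty τ N (Fin k))), (∀ P ∈ C, Rl F P) →
    ∀ (r : Fin 3) (lb : Fin k → Rg L), (∀ v, inR r (lb v)) → (∀ v v', Adj (lb v) (lb v')) →
    ∀ P : Fin 6 → Ty τ N (Fin k), VP C I P →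
      ((∀ v, lb v = none) ∨ ∃ x y, P = pat r x y) →
      (∃ Q : Ty τ N (Fin (k + k)), Rl F Q ∧ rse (cst I) Q = rse (cst I) (dup (P 0))) ∧
      CfD F I (rse (cst I) (dup (P 0))) (cfg I r lb P) ∧
      (∀ c, ptn (cfg I r lb P) c = P c) ∧
      ∀ (r' : Fin 3) (lb' : Fin k → Rg L) (P' : Fin 6 → Ty τ N (Fin k)) (e : Finset (Fin k)),
        VP C I P' → (∀ v ∈ e, lb v = lb' v) → (∀ c, rse (e ∪ I) (P c) = rse (e ∪ I) (P' c)) →
        rse (cst I) (dup (P 0)) = rse (cst I) (dup (P' 0)) ∧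
        (r = r' → EqD I (rse (cst I) (dup (P 0))) e (cfg I r lb P) (cfg I r' lb' P')) ∧
        ((∀ v, lb v = none) → EqD I (rse (cst I) (dup (P 0))) e (cfg I r lb P)
          (cfg I r' lb' P'))

/-- the corrected outputs are operations -/
def T_LBO : Prop :=
  ∀ (τ σ : Sig) (N k : ℕ) (F : Set (Str τ (Fin N))) (Al : Fin σ.m → Fin τ.m → Prop), 1 ≤ k →
    ∀ eps : Ty τ N (Fin k) → Ty τ N (Fin k), Core F Al eps → ∀ (I : Finset (Fin k))
      (Out : Ty τ N (Fin (k + k)) → Nm τ N k (N + 1) → Ty τ N (Fin k))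
      (th : Ty τ N (Fin (k + k)) → Nm τ N k (N + 1) → Ty τ N (Fin k) → Ty τ N (Fin k)),
    (∀ a₀ : Ty τ N (Fin (k + k)), (∃ P, Rl F P ∧ rse (cst I) P = a₀) →
      CorP F Al I a₀ eps (Out a₀) (th a₀)) →
    ∀ (r : Fin 3) (lb : Fin k → Rg (N + 1)), (∀ v, inR r (lb v)) →
      (∀ v v', Adj (lb v) (lb v')) →
      ((∀ v, lb v = none) → OpI (CS F eps) Al I (Fin 6) (Ps eps I Out th r lb)) ∧
      OpI (CS F eps) Al I (Fin 2) (fun P => Ps eps I Out th r lb (pat r (P 0) (P 1)))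

/-- comparison of the corrected outputs -/
def T_LBE : Prop :=
  ∀ (τ σ : Sig) (N k : ℕ) (F : Set (Str τ (Fin N))) (Al : Fin σ.m → Fin τ.m → Prop), 1 ≤ k →
    ∀ eps : Ty τ N (Fin k) → Ty τ N (Fin k), Core F Al eps → ∀ (I : Finset (Fin k))
      (Out : Ty τ N (Fin (k + k)) → Nm τ N k (N + 1) → Ty τ N (Fin k))
      (th : Ty τ N (Fin (k + k)) → Nm τ N k (N + 1) → Ty τ N (Fin k) → Ty τ N (Fin k)),
    (∀ a₀ : Ty τ N (Fin (k + k)), (∃ P, Rl F P ∧ rse (cst I) P = a₀) →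
      CorP F Al I a₀ eps (Out a₀) (th a₀)) →
    (∀ (r r' : Fin 3) (P : Fin 6 → Ty τ N (Fin k)), VP (CS F eps) I P →
      ∀ e : Finset (Fin k), rse e (Ps eps I Out th r (fun _ => none) P) =
        rse e (Ps eps I Out th r' (fun _ => none) P)) ∧
    (∀ (r r' : Fin 3) (P : Fin 2 → Ty τ N (Fin k)), VP (CS F eps) I P →
      ∀ e : Finset (Fin k), rse e (Ps eps I Out th r (fun _ => some none) (pat r (P 0) (P 1))) =
        rse e (Ps eps I Out th r' (fun _ => some none) (pat r' (P 0) (P 1)))) ∧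
    ∀ (r : Fin 3) (lb lb' : Fin k → Rg (N + 1)), (∀ v, inR r (lb v)) →
      (∀ v v', Adj (lb v) (lb v')) → (∀ v, inR r (lb' v)) → (∀ v v', Adj (lb' v) (lb' v')) →
      ∀ u, u ∉ I → (∀ v, v ≠ u → lb v = lb' v) → ∀ P : Fin 2 → Ty τ N (Fin k),
        VP (CS F eps) I P → ∀ e : Finset (Fin k), u ∉ e →
          rse e (Ps eps I Out th r lb (pat r (P 0) (P 1))) =
            rse e (Ps eps I Out th r lb' (pat r (P 0) (P 1)))

/-- the ternary operations -/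
def T_LBT : Prop :=
  ∀ (τ σ : Sig) (N k : ℕ) (F : Set (Str τ (Fin N))) (Al : Fin σ.m → Fin τ.m → Prop), 1 ≤ k →
    ∀ eps : Ty τ N (Fin k) → Ty τ N (Fin k), Core F Al eps → ∀ (I : Finset (Fin k))
      (Out : Ty τ N (Fin (k + k)) → Nm τ N k (N + 1) → Ty τ N (Fin k))
      (th : Ty τ N (Fin (k + k)) → Nm τ N k (N + 1) → Ty τ N (Fin k) → Ty τ N (Fin k)),
    (∀ a₀ : Ty τ N (Fin (k + k)), (∃ P, Rl F P ∧ rse (cst I) P = a₀) →
      CorP F Al I a₀ eps (Out a₀) (th a₀)) →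
    ∀ (r : Fin 3) (lb lb' : Fin k → Rg (N + 1)), (∀ v, inR r (lb v)) →
      (∀ v v', Adj (lb v) (lb v')) → (∀ v, inR r (lb' v)) → (∀ v v', Adj (lb' v) (lb' v')) →
      ∀ u, u ∈ I → (∀ v, v ≠ u → lb v = lb' v) →
      ∃ Θ : (Fin 3 → Ty τ N (Fin k)) → Ty τ N (Fin k), OpI (CS F eps) Al I (Fin 3) Θ ∧
        (∀ P : Fin 2 → Ty τ N (Fin k), VP (CS F eps) I P → ∀ e : Finset (Fin k),
          rse e (Θ ![P 0, P 1, Ps eps I Out th r lb (pat r (P 0) (P 1))]) =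
            rse e (Ps eps I Out th r lb' (pat r (P 0) (P 1)))) ∧
        ∃ m', 1 ≤ m' ∧ ∀ P : Fin 3 → Ty τ N (Fin k), VP (CS F eps) I P →
          ∀ e : Finset (Fin k), rse e (itO Θ m' P) = rse e (P 2)

/-- chains of labellings -/
def T_LBC : Prop :=
  ∀ (k L : ℕ) (r : Fin 3), 1 ≤ k → 1 ≤ L → ∃ (m : ℕ) (lb : ℕ → Fin k → Rg L),
    (∀ j v, inR r (lb j v)) ∧ (∀ j v v', Adj (lb j v) (lb j v')) ∧ lb 0 = (fun _ => none) ∧
    lb m = (fun _ => some none) ∧ ∀ j, j < m → ∃ u, ∀ v, v ≠ u → lb j v = lb (j + 1) v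

/-- the chains of operations -/
def T_CHO : Prop :=
  ∀ (τ σ : Sig) (N k : ℕ) (F : Set (Str τ (Fin N))) (Al : Fin σ.m → Fin τ.m → Prop), 1 ≤ k →
    ∀ eps : Ty τ N (Fin k) → Ty τ N (Fin k), Core F Al eps → ∀ (I : Finset (Fin k))
      (Out : Ty τ N (Fin (k + k)) → Nm τ N k (N + 1) → Ty τ N (Fin k))
      (th : Ty τ N (Fin (k + k)) → Nm τ N k (N + 1) → Ty τ N (Fin k) → Ty τ N (Fin k)),
    (∀ a₀ : Ty τ N (Fin (k + k)), (∃ P, Rl F P ∧ rse (cst I) P = a₀) →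
      CorP F Al I a₀ eps (Out a₀) (th a₀)) → ChO (CS F eps) Al I

/-- the local sorts have a common new element -/
def T_JZX : Prop :=
  ∀ (X 𝓛 : Type) [Finite X] (N k : ℕ) (R : 𝓛 → (So N k → X) → Prop) (l₀ : 𝓛)
    (rd : So N k → So N k → X → X) (I : Finset (Fin k))
    (ι : (J : Type) → [Finite J] → [Nonempty J] → (So N k → (J → X) → X) → J),
    Bas R l₀ rd → Iot R l₀ I ι → ChX R l₀ I → (∃ e, Loc R l₀ I ι e) ∧
      (∀ e, Loc R l₀ I ι e → I ⊂ e.1) ∧ ∃ v, v ∉ I ∧ ∀ e, Loc R l₀ I ι e → v ∈ e.1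

/-- from families on the core to families -/
def T_EPS : Prop :=
  ∀ (τ σ : Sig) (N k : ℕ) (F : Set (Str τ (Fin N))) (Al : Fin σ.m → Fin τ.m → Prop), 1 ≤ k →
    ∀ eps : Ty τ N (Fin k) → Ty τ N (Fin k), Core F Al eps →
    (∃ G : So N k → (Fin 6 → Ty τ N (Fin k)) → Ty τ N (Fin k),
      Pool.Agent.H53.GC.Fam (RS (CS F eps) Al) (Fin 6) G ∧
        ∀ e x y r, G e (pat r x y) = G e (pat 0 x y)) →
    ∃ G : So N k → (Fin 6 → Ty τ N (Fin k)) → Ty τ N (Fin k),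
      Pool.Agent.H53.GC.Fam (RX F Al k) (Fin 6) G ∧
        ∀ e x y r, G e (pat r x y) = G e (pat 0 x y)

end Pool.Agent.H53.GX
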