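import Pool.Agent.H53.GX.Targets

/-!
# Forbidden coloured patterns, no precolouring: assembly of the analytic part
-/

set_option autoImplicit false
set_option linter.unusedVariables false

namespace Pool.Agent.H53.GX

open Pool.Agent.H68.BP Pool.Agent.H58.SF Pool.Agent.H53.GM
open Classical

/-- the axioms for the systems of types -/
theorem asm_axx (h1 : Pool.Agent.H53.GM.T_B1) (h2 : T_B2X) (h3 : T_B3X) :
    ∀ (τ : Sig) (N k : ℕ) (F : Set (Str τ (Fin N))) (I : Finset (Fin k)), Hyp τ N F →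
      Axs (bX F I) N (Gd0 F I) := by
  intro τ N k F I hF
  exact ⟨fun W W' C C' f => h1 τ N k F I W W' C C' f, fun W _ C => h2 τ N k F I hF W C,
    fun W _ C U₁ U₂ g₀ κ₀ => h3 τ N k F I hF W C U₁ U₂ g₀ κ₀⟩

/-- the output theorem -/
theorem asm_oux (hAx : ∀ (τ : Sig) (N k : ℕ) (F : Set (Str τ (Fin N))) (I : Finset (Fin k)),
      Hyp τ N F → Axs (bX F I) N (Gd0 F I))
    (hRAM : Pool.Agent.H53.GM.T_RAM) (hAXX : T_AXX) (hCSX : T_CSX) (hCGX : T_CGX) (hKSX : T_KSX) (hKGX : T_KGX)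
    (hCOL : Pool.Agent.H53.GM.T_COL) (hKAX : T_KAX) (hTPB : Pool.Agent.H53.GM.T_TPB) (hPWG : Pool.Agent.H53.GM.T_PWG) (hREX : T_REX) (hCNX : T_CNX)
    (hLBX : T_LBX) (hCEX : T_CEX) : T_OUX := by
  intro τ σ N F Al A 𝔸 hAc hAn hol hK3 hF hT k hk I a₀ ha₀
  have hfty := finite_ty τ N (Fin k)
  have hfty2 := finite_ty τ N (Fin (k + k))
  have hfkd := finite_kd τ N (k + k)
  obtain ⟨𝔸', hv, hc⟩ := hCOL τ σ N F Al A 𝔸 hT
  have hax := hAx τ N (k + k) F (cst I) hF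
  have haxg := hAXX τ N (k + k) (N + 1) F (cst I) a₀ hF ha₀ hax
  have h1L : 1 ≤ N + 1 := by omega
  obtain ⟨hcs, hcs0⟩ := hCSX τ N k (N + 1) F I a₀ hF h1L ha₀
  have hcg := hCGX τ N k (N + 1) F I a₀ hF h1L ha₀ hax
  -- the Ramsey theorem
  have hfin0 : Finite {q : Nm τ N k (N + 1) // CfX F I a₀ q} := by
    have h0 : Finite (Finset (Fin k)) := inferInstance
    have : Finite (Nm τ N k (N + 1)) := by
      unfold Nm
      infer_instance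
    infer_instance
  have hne0 : Nonempty ({q : Nm τ N k (N + 1) // CfX F I a₀ q} × Fin k) := by
    obtain ⟨P, hP1, hP2⟩ := ha₀
    refine ⟨⟨⟨(∅, 0, fun _ => none, fun _ => rse (ps (Finset.univ \ ∅) ∪ cst I) P), ?_⟩,
      ⟨0, hk⟩⟩⟩
    refine ⟨Finset.empty_subset _, fun _ => ⟨⟨P, hP1, rfl⟩, ?_⟩, fun _ _ => trivial,
      fun _ _ _ _ => ?_, Or.inl fun _ _ => rfl⟩
    · rw [rse_rse (Finset.subset_union_right)]
      exact hP2
    · refine ⟨by simp, by simp, ?_⟩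
      intro q q' h
      cases h
  obtain ⟨W, hW, E, hE1, hE2, hE3⟩ := hRAM (Fin (k + k) × Rg (N + 1)) (Kd τ N (k + k))
    (gX (N + 1) F (cst I) a₀) N (GdG F (cst I)) haxg
    ({q : Nm τ N k (N + 1) // CfX F I a₀ q} × Fin k) (Ty τ N (Fin k))
    (cX (N + 1) F I a₀) (fun _ => a₀, fun _ => a₀) hcs hcg hcs0
  have hKK := hKGX τ N (k + k) (N + 1) F (cst I) a₀ W E hF (by omega) ha₀ hE1 hE2 hax
  have hKKs := hKSX τ N (k + k) (N + 1) F (cst I) a₀ W E h1L ha₀ hE1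
  -- the realization
  obtain ⟨f, a, hfa⟩ := hREX τ σ N (k + k) F Al A 𝔸 hF hT (cst I) (W × Fin 6) (KK E) hKKs hKK
  -- the function on the sixth power
  have hneB : Nonempty (W ⊕ Fin k) := ⟨Sum.inr ⟨0, hk⟩⟩
  obtain ⟨h, hh1, hh2⟩ := hPWG σ A 𝔸 hAc hAn hol hK3 (W ⊕ Fin k) k hk (Ty τ N (Fin k))
    (fun a => tp N 𝔸' a)
  refine hCEX τ σ N k F Al A 𝔸 hF hk I a₀ ha₀ (fun a => tp N 𝔸' a)
    (fun a => (hKAX τ σ N F Al A 𝔸 𝔸' hF hv hc k a).1) ?_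
    (fun a => (hKAX τ σ N F Al A 𝔸 𝔸' hF hv hc k a).2) W E f (fun i => a (Fin.natAdd k i)) h
    hE1 hE3 (hCNX τ N k (N + 1) F I a₀ A W _ E f _ h h1L hE1 hh2)
    (hLBX τ N k (N + 1) F I a₀) ?_ ?_
  · intro e b b' hb
    exact (hTPB τ N A A (Fin k) (Fin k) 𝔸' 𝔸' b).2.2.1 b' e hb
  · intro G t hG b hb1 hb2
    refine hfa G t hG b ?_ hb2
    intro v hv'
    obtain ⟨i, hi, rfl⟩ := Finset.mem_image.1 hv'
    exact hb1 i hi
  · intro r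
    obtain ⟨x, hx1, hx2⟩ := hh1
      (fun l z => ∀ c, 𝔸 l (fun i => uxX E f (fun i => a (Fin.natAdd k i)) r c (z i)))
      (fun c => uxX E f (fun i => a (Fin.natAdd k i)) r c) (fun c l z hz => hz c)
    exact ⟨x, hx2, fun l z hz => hx1 l z hz⟩

/-- the main theorem -/
theorem asm_mainX (hALG : T_ALG) (hOUX : T_OUX) (hLIM : T_LIMX) (hRED : T_RDX)
    (hOLS : Pool.Agent.H53.GC.T_OLS)
    (τ σ : Sig) (N : ℕ) (F : Set (Str τ (Fin N))) (Al : Fin σ.m → Fin τ.m → Prop) (A : Type)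
    (𝔸 : Str σ A) (hAc : Countable A) (hAn : Nonempty A) (hol : Oligo 𝔸) (hF : Hyp τ N F)
    (hT : Tpl F Al 𝔸) :
    PPConstructsK3 𝔸 ∨ (¬ PPConstructsK3 (tmX F Al) ∧
      N793a5b8e.ManyOneReducible (CSP 𝔸) (CSP (tmX F Al))) := by
  by_cases hK : PPConstructsK3 𝔸
  · exact Or.inl hK
  · exact Or.inr ⟨hOLS _ _ _ (hLIM τ σ N F Al hF fun k hk => hALG τ σ N F Al hF k hk
      fun I a₀ ha₀ => hOUX τ σ N F Al A 𝔸 hAc hAn hol hK hF hT k hk I a₀ ha₀),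
      hRED τ σ N F Al A 𝔸 hF hT⟩

/-- the final theorem -/
theorem asm_finX
    (hmain : ∀ (τ σ : Sig) (N : ℕ) (F : Set (Str τ (Fin N))) (Al : Fin σ.m → Fin τ.m → Prop)
      (A : Type) (𝔸 : Str σ A), Countable A → Nonempty A → Oligo 𝔸 → Hyp τ N F → Tpl F Al 𝔸 →
      PPConstructsK3 𝔸 ∨ (¬ PPConstructsK3 (tmX F Al) ∧
        N793a5b8e.ManyOneReducible (CSP 𝔸) (CSP (tmX F Al))))
    (hPAD : Pool.Agent.H53.GM.T_PAD) (hCON : Pool.Agent.H53.GM.T_CON)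
    (τ σ : Sig) (Al : Fin σ.m → Fin τ.m → Prop) (L : List (Σ n : ℕ, Str τ (Fin n))) (A : Type)
    (𝔸 : Str σ A) (hAc : Countable A) (hAn : Nonempty A) (hol : Oligo 𝔸)
    (har : ∀ l, 1 ≤ τ.ar l)
    (hT : ∀ (n : ℕ) (𝕏 : Str σ (Fin n)), (∃ f, IsHom 𝕏 𝔸 f) ↔
      ∃ M : Str τ (Fin n), Avoids L M ∧ Cols Al M 𝕏) :
    PPConstructsK3 𝔸 ∨ ∃ (ρ : Sig) (T : Type) (_ : Finite T) (𝕋 : Str ρ T),
      ¬ PPConstructsK3 𝕋 ∧ N793a5b8e.ManyOneReducible (CSP 𝔸) (CSP 𝕋) := by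
  obtain ⟨L', h1, h2⟩ := hCON τ σ Al L A 𝔸 har hT
  obtain ⟨N, F, hF, hval, hT'⟩ := hPAD τ σ Al L' A 𝔸 hAn har h1 h2
  rcases hmain τ σ N F Al A 𝔸 hAc hAn hol hF hT' with h | ⟨h1, h2⟩
  · exact Or.inl h
  · refine Or.inr ⟨_, _, ?_, _, h1, h2⟩
    have : ∀ j : Fin N, Finite (Ty τ N (Fin (j + 1))) := fun j => finite_ty τ N _
    infer_instance

end Pool.Agent.H53.GX
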