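import Pool.Agent.H53.GX.Defs

/-!
# Forbidden coloured patterns, no precolouring: targets of the analytic part
-/

set_option autoImplicit false
set_option linter.unusedVariables false

namespace Pool.Agent.H53.GX

open Pool.Agent.H68.BP Pool.Agent.H58.SF Pool.Agent.H53.GM
open Classical

/-! ### Systems of types -/

def T_B2X : Prop :=
  ∀ (τ : Sig) (N k : ℕ) (F : Set (Str τ (Fin N))) (I : Finset (Fin k)), Hyp τ N F →
    ∀ (W : Type) [Finite W] (C : Sy (Fin k) (Ty τ N (Fin k)) W), IsSys (bX F I) C →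
    (∀ U : Finset W, U.card ≤ N → Gd0 F I W (C.res (U : Set W))) → Gd0 F I W C

def T_B3X : Prop :=
  ∀ (τ : Sig) (N k : ℕ) (F : Set (Str τ (Fin N))) (I : Finset (Fin k)), Hyp τ N F →
    ∀ (W : Type) [Finite W] (C : Sy (Fin k) (Ty τ N (Fin k)) W) (U₁ U₂ : Set W) (g₀ : Finset W)
    (κ₀ : Ty τ N (Fin k)), IsSys (bX F I) C → C.gd g₀ κ₀ → (∀ x, x ∈ g₀ ↔ x ∈ U₁ ∧ x ∈ U₂) →
    (∀ g κ, C.gd g κ → (∀ x ∈ g, x ∈ U₁) ∨ ∀ x ∈ g, x ∈ U₂) →
    Gd0 F I W (C.res U₁) → Gd0 F I W (C.res U₂) → Gd0 F I W C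

/-! ### Graded systems -/

/-- the six and the two systems are systems of types -/
def T_DZX : Prop :=
  ∀ (τ : Sig) (N k L : ℕ) (F : Set (Str τ (Fin N))) (I : Finset (Fin k)) (a₀ : Ty τ N (Fin k))
    (W : Type) (C : Sy (Fin k × Rg L) (Kd τ N k) W), (∃ P, Rl F P ∧ rse I P = a₀) →
    IsSys (gX L F I a₀) C → (∀ c, IsSys (bX F I) (dz C c)) ∧ ∀ d, IsSys (bX F I) (ds C d)

/-- goodness of graded systems -/
def T_AXX : Prop :=
  ∀ (τ : Sig) (N k L : ℕ) (F : Set (Str τ (Fin N))) (I : Finset (Fin k)) (a₀ : Ty τ N (Fin k)),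
    Hyp τ N F → (∃ P, Rl F P ∧ rse I P = a₀) → Axs (bX F I) N (Gd0 F I) →
    Axs (gX L F I a₀) N (GdG F I)

/-- the system of all configurations -/
def T_CSX : Prop :=
  ∀ (τ : Sig) (N k L : ℕ) (F : Set (Str τ (Fin N))) (I : Finset (Fin k))
    (a₀ : Ty τ N (Fin (k + k))), Hyp τ N F → 1 ≤ L →
    (∃ P, Rl F P ∧ rse (cst I) P = a₀) → IsSys (gX L F (cst I) a₀) (cX L F I a₀) ∧
      (cX L F I a₀).gd ∅ (fun _ => a₀, fun _ => a₀)

def T_CGX : Prop :=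
  ∀ (τ : Sig) (N k L : ℕ) (F : Set (Str τ (Fin N))) (I : Finset (Fin k))
    (a₀ : Ty τ N (Fin (k + k))), Hyp τ N F → 1 ≤ L →
    (∃ P, Rl F P ∧ rse (cst I) P = a₀) → Axs (bX F (cst I)) N (Gd0 F (cst I)) →
    GdG F (cst I) _ (cX L F I a₀)

/-- the system of the sheets -/
def T_KSX : Prop :=
  ∀ (τ : Sig) (N k L : ℕ) (F : Set (Str τ (Fin N))) (I : Finset (Fin k)) (a₀ : Ty τ N (Fin k))
    (W : Type) [Finite W] (C : Sy (Fin k × Rg L) (Kd τ N k) W), 1 ≤ L →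
    (∃ P, Rl F P ∧ rse I P = a₀) → IsSys (gX L F I a₀) C → IsSys (bX F I) (KK C)

/-- the part of the sheets below the cut -/
def T_KZX : Prop :=
  ∀ (τ : Sig) (N k L : ℕ) (F : Set (Str τ (Fin N))) (I : Finset (Fin k)) (a₀ : Ty τ N (Fin k))
    (W : Type) [Finite W] (C : Sy (Fin k × Rg L) (Kd τ N k) W), Hyp τ N F → 1 ≤ L →
    (∃ P, Rl F P ∧ rse I P = a₀) → IsSys (gX L F I a₀) C → (∀ c, Gd0 F I W (dz C c)) →
    Axs (bX F I) N (Gd0 F I) → ∀ U : Set (W × Fin 6),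
      (∀ x ∈ U, (C.pt x.1).2 ≠ some none) → Gd0 F I _ ((KK C).res U)

/-- the part of the sheets above the cut -/
def T_KTX : Prop :=
  ∀ (τ : Sig) (N k L : ℕ) (F : Set (Str τ (Fin N))) (I : Finset (Fin k)) (a₀ : Ty τ N (Fin k))
    (W : Type) [Finite W] (C : Sy (Fin k × Rg L) (Kd τ N k) W), Hyp τ N F → 1 ≤ L →
    (∃ P, Rl F P ∧ rse I P = a₀) → IsSys (gX L F I a₀) C → (∀ d, Gd0 F I W (ds C d)) →
    Axs (bX F I) N (Gd0 F I) → ∀ U : Set (W × Fin 6),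
      (∀ x ∈ U, (C.pt x.1).2 ≠ none) → Gd0 F I _ ((KK C).res U)

/-- the system of the sheets is good -/
def T_KGX : Prop :=
  ∀ (τ : Sig) (N k L : ℕ) (F : Set (Str τ (Fin N))) (I : Finset (Fin k)) (a₀ : Ty τ N (Fin k))
    (W : Type) [Finite W] (C : Sy (Fin k × Rg L) (Kd τ N k) W), Hyp τ N F → N + 1 ≤ L →
    (∃ P, Rl F P ∧ rse I P = a₀) → IsSys (gX L F I a₀) C → GdG F I W C →
    Axs (bX F I) N (Gd0 F I) → Gd0 F I _ (KK C)

/-! ### The template -/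

/-- types of tuples of the template -/
def T_KAX : Prop :=
  ∀ (τ σ : Sig) (N : ℕ) (F : Set (Str τ (Fin N))) (Al : Fin σ.m → Fin τ.m → Prop) (A : Type)
    (𝔸 : Str σ A) (𝔸' : Str τ A), Hyp τ N F → Val F 𝔸' → Cols Al 𝔸' 𝔸 →
    ∀ (k : ℕ) (a : Fin k → A), Rl F (tp N 𝔸' a) ∧
      ∀ (l : Fin σ.m) (z : Fin (σ.ar l) → Fin k), 𝔸 l (fun i => a (z i)) →
        hasl Al l z (tp N 𝔸' a)

/-- realization of good systems in the template -/
def T_REX : Prop :=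
  ∀ (τ σ : Sig) (N k : ℕ) (F : Set (Str τ (Fin N))) (Al : Fin σ.m → Fin τ.m → Prop) (A : Type)
    (𝔸 : Str σ A), Hyp τ N F → Tpl F Al 𝔸 →
    ∀ (I : Finset (Fin k)) (V : Type) [Finite V] (C : Sy (Fin k) (Ty τ N (Fin k)) V),
      IsSys (bX F I) C → Gd0 F I V C →
    ∃ (f : V → A) (a : Fin k → A), ∀ G t, C.gd G t → ∀ b : Fin k → A, (∀ v ∈ I, b v = a v) →
      (∀ x ∈ G, b (C.pt x) = f x) →
      ∀ (l : Fin σ.m) (z : Fin (σ.ar l) → Fin k), (∀ i, z i ∈ G.image C.pt ∪ I) →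
        hasl Al l z t → 𝔸 l (fun i => b (z i))

/-- The output at a guard does not depend on the path. -/
def T_CNX : Prop :=
  ∀ (τ : Sig) (N k L : ℕ) (F : Set (Str τ (Fin N))) (I : Finset (Fin k))
    (a₀ : Ty τ N (Fin (k + k))) (A W Y : Type)
    (E : Sy (Fin (k + k) × Rg L) (Kd τ N (k + k)) W) (f : W × Fin 6 → A) (a : Fin k → A)
    (h : (Fin 6 → Fin k → A) → Y), 1 ≤ L → IsSys (gX L F (cst I) a₀) E →
    (∀ (r : Fin 3) (P P' : Fin k → A), h (pat r P P') = h (pat 0 P P')) →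
    ∀ g κ, E.gd g κ → ∀ r r' : Fin 3, (∀ x ∈ g, inR r (E.pt x).2) →
      (∀ x ∈ g, inR r' (E.pt x).2) →
      h (fun c v => uxX E f a r c (agX E g v)) = h (fun c v => uxX E f a r' c (agX E g v))

/-- the labels of a configuration -/
def T_LBX : Prop :=
  ∀ (τ : Sig) (N k L : ℕ) (F : Set (Str τ (Fin N))) (I : Finset (Fin k))
    (a₀ : Ty τ N (Fin (k + k))) (q : Nm τ N k L), CfX F I a₀ q →
    ∀ e : Finset (Fin k), Disjoint e q.1 → ∀ c,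
      labK (pts (lbx q.2.2.1) (ps e)) (kdx I a₀ q e) q.2.1 c = rse (ps e ∪ cst I) (q.2.2.2 c)

/-- the outputs of the configurations -/
def T_CEX : Prop :=
  ∀ (τ σ : Sig) (N k : ℕ) (F : Set (Str τ (Fin N))) (Al : Fin σ.m → Fin τ.m → Prop) (A : Type)
    (𝔸 : Str σ A), Hyp τ N F → 1 ≤ k → ∀ (I : Finset (Fin k)) (a₀ : Ty τ N (Fin (k + k))),
    (∃ P, Rl F P ∧ rse (cst I) P = a₀) →
    ∀ (K : (Fin k → A) → Ty τ N (Fin k)), (∀ a, Rl F (K a)) →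
      (∀ (e : Finset (Fin k)) (a a' : Fin k → A), (∀ v ∈ e, a v = a' v) →
        rse e (K a) = rse e (K a')) →
      (∀ (a : Fin k → A) (l : Fin σ.m) (z : Fin (σ.ar l) → Fin k), 𝔸 l (fun i => a (z i)) →
        hasl Al l z (K a)) →
    ∀ (W : Type) [Finite W] (E : Sy (Fin (k + k) × Rg (N + 1)) (Kd τ N (k + k)) W)
      (f : W × Fin 6 → A) (a : Fin k → A) (h : (Fin 6 → Fin k → A) → Ty τ N (Fin k)),
      IsSys (gX (N + 1) F (cst I) a₀) E → Ram (cX (N + 1) F I a₀) (Ty τ N (Fin k)) E →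
      (∀ g κ, E.gd g κ → ∀ r r' : Fin 3, (∀ x ∈ g, inR r (E.pt x).2) →
        (∀ x ∈ g, inR r' (E.pt x).2) →
        h (fun c v => uxX E f a r c (agX E g v)) = h (fun c v => uxX E f a r' c (agX E g v))) →
      (∀ q : Nm τ N k (N + 1), CfX F I a₀ q →
        ∀ e : Finset (Fin k), Disjoint e q.1 → ∀ c,
          labK (pts (lbx q.2.2.1) (ps e)) (kdx I a₀ q e) q.2.1 c =
            rse (ps e ∪ cst I) (q.2.2.2 c)) →
      (∀ G t, (KK E).gd G t → ∀ b : Fin (k + k) → A, (∀ i ∈ I, b (Fin.natAdd k i) = a i) →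
        (∀ x ∈ G, b ((KK E).pt x) = f x) →
        ∀ (l : Fin σ.m) (z : Fin (σ.ar l) → Fin (k + k)),
          (∀ i, z i ∈ G.image (KK E).pt ∪ cst I) → hasl Al l z t → 𝔸 l (fun i => b (z i))) →
      (∀ r : Fin 3, ∃ x : W ⊕ Fin k → A,
        (∀ α : Fin k → W ⊕ Fin k, K (fun v => x (α v)) = h (fun c v => uxX E f a r c (α v))) ∧
        ∀ (l : Fin σ.m) (z : Fin (σ.ar l) → W ⊕ Fin k),
          (∀ c, 𝔸 l (fun i => uxX E f a r c (z i))) → 𝔸 l (fun i => x (z i))) →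
    ∃ Out : Nm τ N k (N + 1) → Ty τ N (Fin k),
      (∀ q, CfX F I a₀ q → Rl F (Out q) ∧
        ∀ (l : Fin σ.m) (z : Fin (σ.ar l) → Fin k),
          (∀ c, hasl Al l (fun i => rdp q.1 (z i)) (q.2.2.2 c)) → hasl Al l z (Out q)) ∧
      ∀ q q' e, CfX F I a₀ q → CfX F I a₀ q' → EqX I a₀ e q q' →
        rse e (Out q) = rse e (Out q')

/-- the output theorem -/
def T_OUX : Prop :=
  ∀ (τ σ : Sig) (N : ℕ) (F : Set (Str τ (Fin N))) (Al : Fin σ.m → Fin τ.m → Prop) (A : Type)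
    (𝔸 : Str σ A), Countable A → Nonempty A → Oligo 𝔸 → ¬ PPConstructsK3 𝔸 → Hyp τ N F →
    Tpl F Al 𝔸 → ∀ k : ℕ, 1 ≤ k → ∀ (I : Finset (Fin k)) (a₀ : Ty τ N (Fin (k + k))),
    (∃ P, Rl F P ∧ rse (cst I) P = a₀) →
    ∃ Out : Nm τ N k (N + 1) → Ty τ N (Fin k),
      (∀ q, CfX F I a₀ q → Rl F (Out q) ∧
        ∀ (l : Fin σ.m) (z : Fin (σ.ar l) → Fin k),
          (∀ c, hasl Al l (fun i => rdp q.1 (z i)) (q.2.2.2 c)) → hasl Al l z (Out q)) ∧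
      ∀ q q' e, CfX F I a₀ q → CfX F I a₀ q' → EqX I a₀ e q q' →
        rse e (Out q) = rse e (Out q')

/-! ### The finite template -/

/-- the limit of the Olšák families -/
def T_LIMX : Prop :=
  ∀ (τ σ : Sig) (N : ℕ) (F : Set (Str τ (Fin N))) (Al : Fin σ.m → Fin τ.m → Prop), Hyp τ N F →
    (∀ k : ℕ, 1 ≤ k → ∃ G : Pool.Agent.H53.GR.So N k → (Fin 6 → Ty τ N (Fin k)) →
      Ty τ N (Fin k),
      Pool.Agent.H53.GC.Fam (RX F Al k) (Fin 6) G ∧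
        ∀ e x y r, G e (pat r x y) = G e (pat 0 x y)) →
    HasOlsak (tmX F Al) (tmX F Al)

/-- correctness of the reduction: from colourings to assignments -/
def T_REAX : Prop :=
  ∀ (τ σ : Sig) (N : ℕ) (F : Set (Str τ (Fin N))) (Al : Fin σ.m → Fin τ.m → Prop),
    Hyp τ N F → ∀ (n : ℕ) (𝕏 : Str σ (Fin n)) (M : Str τ (Fin n)), Val F M → Cols Al M 𝕏 →
    ∃ q : (j : Fin N) → (Fin (j + 1) → Fin (n + N)) → DmG τ N,
      ∀ (s : Option (Fin σ.m)) (y : Fin (Pool.Agent.H53.GC.arP σ N s) → Fin (n + N))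
        (t : Fin (Pool.Agent.H53.GC.arP σ N s) → Fin (Pool.Agent.H53.GC.arP σ N s)),
        Pool.Agent.H53.GC.relP (Pool.Agent.H53.GR.pls 𝕏 N) N s y →
        (∀ a b, y a ≤ y b ↔ t a ≤ t b) → FmX F Al s t (fun p => q p.1 (fun i => y (p.2 i)))

/-- correctness of the reduction: from assignments to colourings -/
def T_REBX : Prop :=
  ∀ (τ σ : Sig) (N : ℕ) (F : Set (Str τ (Fin N))) (Al : Fin σ.m → Fin τ.m → Prop),
    Hyp τ N F → ∀ (n : ℕ) (𝕏 : Str σ (Fin n))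
      (q : (j : Fin N) → (Fin (j + 1) → Fin (n + N)) → DmG τ N),
      (∀ (s : Option (Fin σ.m)) (y : Fin (Pool.Agent.H53.GC.arP σ N s) → Fin (n + N))
        (t : Fin (Pool.Agent.H53.GC.arP σ N s) → Fin (Pool.Agent.H53.GC.arP σ N s)),
        Pool.Agent.H53.GC.relP (Pool.Agent.H53.GR.pls 𝕏 N) N s y →
        (∀ a b, y a ≤ y b ↔ t a ≤ t b) →
        FmX F Al s t (fun p => q p.1 (fun i => y (p.2 i)))) →
    ∃ M : Str τ (Fin n), Val F M ∧ Cols Al M 𝕏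

/-- the reduction -/
def T_RDX : Prop :=
  ∀ (τ σ : Sig) (N : ℕ) (F : Set (Str τ (Fin N))) (Al : Fin σ.m → Fin τ.m → Prop) (A : Type)
    (𝔸 : Str σ A), Hyp τ N F → Tpl F Al 𝔸 →
    N793a5b8e.ManyOneReducible (CSP 𝔸) (CSP (tmX F Al))

/-- the combinatorial part (corrections, levels): Olšák families -/
def T_ALG : Prop :=
  ∀ (τ σ : Sig) (N : ℕ) (F : Set (Str τ (Fin N))) (Al : Fin σ.m → Fin τ.m → Prop), Hyp τ N F →
    ∀ k : ℕ, 1 ≤ k →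
    (∀ (I : Finset (Fin k)) (a₀ : Ty τ N (Fin (k + k))), (∃ P, Rl F P ∧ rse (cst I) P = a₀) →
      ∃ Out : Nm τ N k (N + 1) → Ty τ N (Fin k),
        (∀ q, CfX F I a₀ q → Rl F (Out q) ∧
          ∀ (l : Fin σ.m) (z : Fin (σ.ar l) → Fin k),
            (∀ c, hasl Al l (fun i => rdp q.1 (z i)) (q.2.2.2 c)) → hasl Al l z (Out q)) ∧
        ∀ q q' e, CfX F I a₀ q → CfX F I a₀ q' → EqX I a₀ e q q' →
          rse e (Out q) = rse e (Out q')) →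
    ∃ G : Pool.Agent.H53.GR.So N k → (Fin 6 → Ty τ N (Fin k)) → Ty τ N (Fin k),
      Pool.Agent.H53.GC.Fam (RX F Al k) (Fin 6) G ∧
        ∀ e x y r, G e (pat r x y) = G e (pat 0 x y)

end Pool.Agent.H53.GX
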