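import Pool.Agent.H53.GM.Targets3

/-!
# Forbidden coloured patterns, no precolouring: definitions

All types which occur in finite valid structures are labels. The index set of the types of the
systems is `Fin (k + k)`: `Fin.castAdd k v` is the position `v` and `Fin.natAdd k i` is the
constant `i`.
-/

set_option autoImplicit false
set_option linter.unusedVariables false

namespace Pool.Agent.H53.GX

open Pool.Agent.H68.BP Pool.Agent.H58.SF Pool.Agent.H53.GM
open Classical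

noncomputable section

/-! ### Systems -/

section base

variable {τ σ : Sig} {N k : ℕ} {W : Type}

/-- The class of the systems of types over the constants `I`. -/
def bX (F : Set (Str τ (Fin N))) (I : Finset (Fin k)) : Cls (Fin k) (Ty τ N (Fin k)) :=
  ⟨fun e t => rse (e ∪ I) t, fun e t => Disjoint e I ∧ ∃ P, Rl F P ∧ rse (e ∪ I) P = t⟩

variable {L : ℕ}

/-- admitted labels of nonempty guards -/
structure OkX (F : Set (Str τ (Fin N))) (I : Finset (Fin k)) (a₀ : Ty τ N (Fin k))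
    (α : Finset (Fin k × Rg L)) (κ : Kd τ N k) : Prop where
  inj : Set.InjOn (Prod.fst : Fin k × Rg L → Fin k) (α : Set (Fin k × Rg L))
  dis : Disjoint (vr α) I
  adj : ∀ x ∈ α, ∀ y ∈ α, Adj x.2 y.2
  six : ¬ AS α → ∀ c, (∃ P, Rl F P ∧ rse (vr α ∪ I) P = κ.1 c) ∧ rse I (κ.1 c) = a₀
  six0 : AS α → κ.1 = fun _ => ∅
  two : ¬ AZ α → ∀ d, (∃ P, Rl F P ∧ rse (vr α ∪ I) P = κ.2 d) ∧ rse I (κ.2 d) = a₀
  two0 : AZ α → κ.2 = fun _ => ∅
  mid : ¬ AS α → ¬ AZ α → ∀ (v : Fin k) (t : Fin L) (r : Fin 3), (v, some (some (t, r))) ∈ α →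
    κ.1 = pat r (κ.2 0) (κ.2 1)

/-- the class of the graded systems -/
def gX (L : ℕ) (F : Set (Str τ (Fin N))) (I : Finset (Fin k))
    (a₀ : Ty τ N (Fin k)) : Cls (Fin k × Rg L) (Kd τ N k) :=
  ⟨rsG I a₀, fun α κ => (α = ∅ ∧ κ = (fun _ => a₀, fun _ => a₀)) ∨ (α ≠ ∅ ∧ OkX F I a₀ α κ)⟩

end base

/-! ### Configurations -/

section conf

variable {τ σ : Sig} {N k L : ℕ}

/-- the positions `e` -/
def ps (e : Finset (Fin k)) : Finset (Fin (k + k)) := e.image (Fin.castAdd k)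

/-- the constants `I` -/
def cst (I : Finset (Fin k)) : Finset (Fin (k + k)) := I.image (Fin.natAdd k)

/-- The position `v`, or the constant `v` if `v ∈ S`. -/
def rdp (S : Finset (Fin k)) (v : Fin k) : Fin (k + k) :=
  if v ∈ S then Fin.natAdd k v else Fin.castAdd k v

/-- Names of configurations: the set of the positions which are constants, the path, the regions
and the six types. -/
abbrev Nm (τ : Sig) (N k L : ℕ) : Type :=
  Finset (Fin k) × Fin 3 × (Fin k → Rg L) × (Fin 6 → Ty τ N (Fin (k + k)))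

/-- configurations (the regions of the positions in `S` are not used) -/
structure CfX (F : Set (Str τ (Fin N))) (I : Finset (Fin k)) (a₀ : Ty τ N (Fin (k + k)))
    (q : Nm τ N k L) : Prop where
  sub : q.1 ⊆ I
  rl : ∀ c, (∃ P, Rl F P ∧ rse (ps (Finset.univ \ q.1) ∪ cst I) P = q.2.2.2 c) ∧
    rse (cst I) (q.2.2.2 c) = a₀
  reg : ∀ v, v ∉ q.1 → inR q.2.1 (q.2.2.1 v)
  adj : ∀ v, v ∉ q.1 → ∀ v', v' ∉ q.1 → Adj (q.2.2.1 v) (q.2.2.1 v')
  bin : (∀ v, v ∉ q.1 → q.2.2.1 v = none) ∨ ∃ P P', q.2.2.2 = pat q.2.1 P P'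

/-- the regions of the positions -/
def lbx (lb : Fin k → Rg L) : Fin (k + k) → Rg L := Fin.addCases lb (fun _ => none)

/-- the kind of the guard `e` -/
def kdx (I : Finset (Fin k)) (a₀ : Ty τ N (Fin (k + k))) (q : Nm τ N k L)
    (e : Finset (Fin k)) : Kd τ N (k + k) :=
  kd (cst I) a₀ q.2.1 (lbx q.2.2.1) q.2.2.2 (ps e)

/-- The configurations agree on `e`. -/
structure EqX (I : Finset (Fin k)) (a₀ : Ty τ N (Fin (k + k))) (e : Finset (Fin k))
    (q q' : Nm τ N k L) : Prop where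
  sS : ∀ v ∈ e, v ∈ q.1 ↔ v ∈ q'.1
  sl : ∀ v ∈ e, v ∉ q.1 → q.2.2.1 v = q'.2.2.1 v
  sk : kdx I a₀ q (e \ q.1) = kdx I a₀ q' (e \ q'.1)

/-- the disjoint union of all configurations -/
def cX (L : ℕ) (F : Set (Str τ (Fin N))) (I : Finset (Fin k))
    (a₀ : Ty τ N (Fin (k + k))) :
    Sy (Fin (k + k) × Rg L) (Kd τ N (k + k)) ({q : Nm τ N k L // CfX F I a₀ q} × Fin k) :=
  ⟨fun x => (Fin.castAdd k x.2, x.1.1.2.2.1 x.2), fun g κ =>
    ∃ (q : {q : Nm τ N k L // CfX F I a₀ q}) (e : Finset (Fin k)),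
      Disjoint e q.1.1 ∧ g = e.image (fun v => (q, v)) ∧ κ = kdx I a₀ q.1 e⟩

/-- the argument `c` of the sheet `r`; `a` are the constants -/
def uxX {W A : Type} (E : Sy (Fin (k + k) × Rg L) (Kd τ N (k + k)) W)
    (f : W × Fin 6 → A) (a : Fin k → A) (r : Fin 3) (c : Fin 6) : W ⊕ Fin k → A :=
  Sum.elim (fun w => f (w, pos (E.pt w).2 r c)) a

/-- the vertex of `g` at the position `v`, or the constant `v` -/
def agX {W : Type} (E : Sy (Fin (k + k) × Rg L) (Kd τ N (k + k)) W) (g : Finset W)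
    (v : Fin k) : W ⊕ Fin k :=
  if h : ∃ x ∈ g, (E.pt x).1 = Fin.castAdd k v then Sum.inl h.choose else Sum.inr v

end conf

/-! ### Patterns and the finite template -/

section template

variable {τ σ : Sig} {N : ℕ} {W : Type}

/-- The relations on patterns: `none` are all patterns, `some ⟨l, z⟩` are those with the atom
`l (z)`. -/
def RX (F : Set (Str τ (Fin N))) (Al : Fin σ.m → Fin τ.m → Prop) (k : ℕ) :
    Option (Σ l : Fin σ.m, (Fin (σ.ar l) → Fin k)) →
      (Pool.Agent.H53.GR.So N k → Ty τ N (Fin k)) → Prop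
  | none => fun p => ∃ P, Rl F P ∧ ∀ e : Pool.Agent.H53.GR.So N k, p e = rse e.1 P
  | some q => fun p => ∃ P, Rl F P ∧ hasl Al q.1 q.2 P ∧
      ∀ e : Pool.Agent.H53.GR.So N k, p e = rse e.1 P

/-- the patterns of the relation `s` for the order `t` -/
def FmX (F : Set (Str τ (Fin N))) (Al : Fin σ.m → Fin τ.m → Prop) (s : Option (Fin σ.m))
    (t : Fin (Pool.Agent.H53.GC.arP σ N s) → Fin (Pool.Agent.H53.GC.arP σ N s))
    (q : Pool.Agent.H53.GR.Ps N (Pool.Agent.H53.GC.arP σ N s) → DmG τ N) : Prop :=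
  ∃ (W : Type) (_ : Finite W) (M : Str τ W) (x : Fin (Pool.Agent.H53.GC.arP σ N s) → W),
    Val F M ∧ colP Al N M s x ∧ (∀ a b, t a = t b → x a = x b) ∧
    ∀ (j : Fin N) (α : Fin (j + 1) → Fin (Pool.Agent.H53.GC.arP σ N s)),
      StrictMono (fun i => t (α i)) → q ⟨j, α⟩ = ⟨j, tp N M (fun i => x (α i))⟩

/-- The finite template. -/
def tmX (F : Set (Str τ (Fin N))) (Al : Fin σ.m → Fin τ.m → Prop) :
    Str (Pool.Agent.H53.GC.sigOf (Pool.Agent.H53.GC.Sym σ N)
      (fun s => Pool.Agent.H53.GR.Ps N (Pool.Agent.H53.GC.arP σ N s.1))) (DmG τ N) :=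
  Pool.Agent.H53.GC.strOn fun s q => FmX F Al s.1 s.2 q

end template

end

end Pool.Agent.H53.GX
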